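import Pool.Agent.N978.RF.Stm

/-! The order of a character which is fixed by `s ^ m`. -/

set_option autoImplicit false

namespace Pool.Agent.N513.RF

open Polynomial

theorem t_ord : Pool.Agent.N978.RF.S_ORD := by
  intro K _ Γ _ s χ hfin P U V c m R hP hc hUV hs hann h
  have := hfin
  have hcyc : IsCyclic χ.range := isCyclic_subgroup_units χ.range
  set N := Nat.card χ.range with hN
  have hNpos : 0 < N := Nat.card_pos
  let e : χ.range ≃* Multiplicative (ZMod N) := (zmodCyclicMulEquiv hcyc).symm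
  let f : Γ →* Multiplicative (ZMod N) := e.toMonoidHom.comp χ.rangeRestrict
  have hf : ∀ g, f g = e (χ.rangeRestrict g) := fun g => rfl
  have hker : χ.ker ≤ f.ker := by
    intro g hg
    rw [MonoidHom.mem_ker] at hg ⊢
    have : χ.rangeRestrict g = 1 := Subtype.ext hg
    rw [hf, this, map_one]
  have hfs : ∀ g, f ((s ^ m) g) = f g := by
    intro g
    have : χ.rangeRestrict ((s ^ m) g) = χ.rangeRestrict g := Subtype.ext (hs g)
    rw [hf, hf, this]
  let E : Module.End ℤ (Γ → ZMod N) := LinearMap.funLeft ℤ (ZMod N) (fun g => s g)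
  let F0 : Γ → ZMod N := fun g => (f g).toAdd
  have hE1 : ∀ (F : Γ → ZMod N) (g : Γ), E F g = F (s g) := fun F g => rfl
  have hE : ∀ (i : ℕ) (g : Γ), (E ^ i) F0 g = F0 ((s ^ i) g) := by
    intro i
    induction i with
    | zero => intro g; simp
    | succ i ih =>
      intro g
      rw [pow_succ' E, Module.End.mul_apply, hE1, ih, pow_succ s, MulAut.mul_apply]
  have hsum : ∀ (Q : ℤ[X]) (g : Γ), (aeval E Q) F0 g =
      ∑ i ∈ Finset.range (Q.natDegree + 1), (Q.coeff i : ZMod N) * (f ((s ^ i) g)).toAdd := by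
    intro Q g
    rw [aeval_eq_sum_range, LinearMap.sum_apply, Finset.sum_apply]
    refine Finset.sum_congr rfl fun i _ => ?_
    rw [LinearMap.smul_apply, Pi.smul_apply, hE, zsmul_eq_mul]
  have h1 : (aeval E (C (c : ℤ) * P)) F0 = 0 := by
    funext g
    rw [hsum, Pi.zero_apply]
    exact hann N hNpos f hker g
  have h2 : (aeval E (X ^ m - 1 : ℤ[X])) F0 = 0 := by
    funext g
    rw [map_sub, map_pow, aeval_X, map_one, LinearMap.sub_apply, Pi.sub_apply, hE,
      Module.End.one_apply, Pi.zero_apply, sub_eq_zero]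
    change (f ((s ^ m) g)).toAdd = (f g).toAdd
    rw [hfs]
  have h3 : (aeval E (C (c : ℤ) * C (R : ℤ) : ℤ[X])) F0 = 0 := by
    have : (C (c : ℤ) * C (R : ℤ) : ℤ[X]) = U * (C (c : ℤ) * P) + (C (c : ℤ) * V) * (X ^ m - 1) := by
      rw [← hUV]; ring
    rw [this, map_add, map_mul, map_mul (aeval E) (C (c : ℤ) * V), LinearMap.add_apply,
      Module.End.mul_apply, Module.End.mul_apply, h1, h2, map_zero, map_zero, add_zero]
  have h4 : f h ^ (c * R) = 1 := by
    have h5 := congrFun h3 h
    rw [← C_mul, aeval_C, Module.algebraMap_end_apply, Pi.smul_apply, Pi.zero_apply,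
      zsmul_eq_mul] at h5
    have h6 : (c * R) • (f h).toAdd = 0 := by
      rw [nsmul_eq_mul]
      push_cast at h5 ⊢
      exact h5
    rw [← toAdd_pow] at h6
    exact h6
  have h7 : e (χ.rangeRestrict h ^ (c * R)) = 1 := by
    rw [map_pow]
    exact h4
  have h8 : χ.rangeRestrict h ^ (c * R) = 1 := by
    apply e.injective
    rw [h7, map_one]
  have h9 := congrArg Subtype.val h8
  exact h9

end Pool.Agent.N513.RF
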